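import Pool.Agent.H.MP_409c19_co.Frame

set_option autoImplicit false

namespace Pool.Agent.Results.MP_409c19_co.Rigid
open Pool.Agent.H.MP_409c19_co

/-- distinct points and distinct lines of the real projective plane with exactly the
incidences `I` -/
def Realizes {n : ℕ} (I : Fin n → Fin n → Prop) (P L : Fin n → Submodule ℝ (Fin 3 → ℝ)) : Prop :=
  (∀ i, Module.finrank ℝ (P i) = 1) ∧ (∀ j, Module.finrank ℝ (L j) = 2) ∧
    Function.Injective P ∧ Function.Injective L ∧ ∀ i j, P i ≤ L j ↔ I i j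

theorem result : ∃ I : Fin 21 → Fin 21 → Prop,
    (∀ i, {j | I i j}.ncard = 4) ∧ (∀ j, {i | I i j}.ncard = 4) ∧
    (∃ P L, Realizes I P L) ∧
    ∀ P L P' L', Realizes I P L → Realizes I P' L' →
      ∃ g : (Fin 3 → ℝ) ≃ₗ[ℝ] (Fin 3 → ℝ),
        (∀ i, (P i).map g.toLinearMap = P' i) ∧ ∀ j, (L j).map g.toLinearMap = L' j := by
  refine ⟨Inc, fun i => ?_, fun j => ?_, ?_, ?_⟩
  · rw [← cntP i, ← Set.ncard_coe_finset]; congr 1; ext j; simp
  · rw [← cntL j, ← Set.ncard_coe_finset]; congr 1; ext i; simp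
  · have H : ∀ i j, Submodule.span ℝ {pv i} ≤ LinearMap.ker (lf j) ↔ Inc i j := fun i j => by
      rw [Submodule.span_singleton_le_iff_mem, LinearMap.mem_ker, lf_pv]
    refine ⟨fun i => Submodule.span ℝ {pv i}, fun j => LinearMap.ker (lf j), fun i => ?_,
      fun j => ?_, fun i i' h => ?_, fun j j' h => ?_, H⟩
    · obtain ⟨j, hj⟩ := exP i
      exact finrank_span_singleton fun h => hj ((lf_pv i j).1 (by rw [h, map_zero]))
    · obtain ⟨i, hi⟩ := exL j
      exact ker_rank _ fun h => hi ((lf_pv i j).1 (by rw [h]; rfl))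
    · by_contra hne
      obtain ⟨j, h1, h2⟩ := sepP i i' hne
      simp only at h
      exact h2 ((H i' j).1 (h ▸ (H i j).2 h1))
    · by_contra hne
      obtain ⟨i, h1, h2⟩ := sepL j j' hne
      simp only at h
      exact h2 ((H i j').1 (h ▸ (H i j).2 h1))
  · rintro P L P' L' ⟨a1, a2, a3, -, a5⟩ ⟨b1, b2, b3, -, b5⟩
    obtain ⟨B, hB⟩ := canon P L a1 a2 a5
    obtain ⟨B', hB'⟩ := canon P' L' b1 b2 b5
    have hp : ∀ i, (P i).map (B.symm.trans B').toLinearMap = P' i := fun i => by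
      rw [hB, hB', ← Submodule.map_comp]
      congr 1
      ext x
      simp
    refine ⟨B.symm.trans B', hp, fun j => ?_⟩
    obtain ⟨a, b, hab, ha, hb⟩ := two j
    rw [line_sup _ _ _ (a1 a) (a1 b) (a2 j) (a3.ne hab) ((a5 a j).2 ha) ((a5 b j).2 hb),
      line_sup _ _ _ (b1 a) (b1 b) (b2 j) (b3.ne hab) ((b5 a j).2 ha) ((b5 b j).2 hb),
      Submodule.map_sup, hp, hp]

end Pool.Agent.Results.MP_409c19_co.Rigid
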